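import Pool.Agent.helper61.CSW.W.SpecW

set_option autoImplicit false

open Complex Metric Set Filter Topology MeasureTheory
open YPPS (fd fdd pre TT CV IsCyc rho Exact)
open MPS (BB)
open Pool.Agent.helper98.ILF (juliaSet fatouSet)

noncomputable section

open CSS (SE SV JJ)

namespace YW

theorem ECE (hT : TGS_stmt) : ECE_stmt := by
  intro f X k _ b hb h1 h2 hr
  obtain ⟨g, hg⟩ := hT k f b hb hr
  have hp : X.p₂ - X.p₁ ≠ 0 := sub_ne_zero.2 (Ne.symm X.ne)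
  refine ⟨g, -(∑ i, g i) - (-(∑ i, (1 + g i * b i)) + (∑ i, g i) * X.p₁) / (X.p₂ - X.p₁),
    (-(∑ i, (1 + g i * b i)) + (∑ i, g i) * X.p₁) / (X.p₂ - X.p₁), ⟨hb, hg, h1, h2, ?_, ?_⟩⟩
  · ring
  · field_simp
    ring

end YW
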